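import Pool.Agent.W308.PL.FLW
import Pool.Agent.W378.DC.MP
import Pool.Agent.W23.KT.Defs

/-!
KT-BHK: Brun-Hooley lower bound sieve of dimension `k`.
-/

open Finset

namespace Pool.Agent.W762.KT

open Pool.Agent.W308.PL.FLW
open Pool.Agent.Helper112.LP.Kbh
open Pool.Agent.Helper112.LP.Kba
open Pool.Agent.W23
open Pool.Agent.W23.DC
open Pool.Agent.W23.KT

theorem tot_prod (U : Finset ℕ) (hU : ∀ p ∈ U, p.Prime) :
    ((Nat.totient (∏ p ∈ U, p) : ℕ) : ℝ) = ∏ p ∈ U, ((p : ℝ) - 1) := by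
  classical
  induction U using Finset.induction_on with
  | empty => simp
  | insert a s ha ih =>
    have hs : ∀ p ∈ s, p.Prime := fun p hp => hU p (mem_insert_of_mem hp)
    have hpa := hU a (mem_insert_self a s)
    rw [prod_insert ha, prod_insert ha, Nat.totient_mul, Nat.totient_prime hpa, Nat.cast_mul,
      ih hs, Nat.cast_sub hpa.one_lt.le, Nat.cast_one]
    apply Nat.Coprime.prod_right
    intro q hq
    rw [Nat.coprime_primes hpa (hs q hq)]
    rintro rfl
    exact ha hq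

theorem coreK {J : ℕ} (Pb : Fin J → Finset ℕ) (b : ℕ)
    (hd : ∀ i j, i ≠ j → Disjoint (Pb i) (Pb j)) (P : Finset ℕ) (hP : P = univ.biUnion Pb)
    (hprime : ∀ j, ∀ p ∈ Pb j, p.Prime) (g : ℕ → ℝ) (hg : ∀ p ∈ P, 0 ≤ g p ∧ g p ≤ 1 / 2)
    (L : ℝ) (hL : ∀ j, ∑ p ∈ Pb j, g p ≤ L) (D : ℕ)
    (hlevel : ∀ U ⊆ P, (∀ j : Fin J, (U ∩ Pb j).card ≤ 2 * (b + j) + 1) → ∏ p ∈ U, p ≤ D)
    (hρ : ∑ j : Fin J, Real.exp (2 * L) *
      (L ^ (2 * (b + j) + 1) / (2 * (b + j) + 1).factorial) ≤ 1 / 2)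
    (G : ℕ → ℝ) (hG : ∀ U ⊆ P, G (∏ p ∈ U, p) = ∏ p ∈ U, g p) :
    ∃ th : ℕ → ℝ, (∀ e, |th e| ≤ J + 1) ∧
      (∀ e, th e ≠ 0 → Squarefree e ∧ e ≤ D ∧ ∀ p : ℕ, p.Prime → p ∣ e → p ∈ P) ∧
      (∀ m : ℤ, ∑ e ∈ Icc 1 D, th e * (if (e : ℤ) ∣ m then 1 else 0) ≤ PL.xx P m) ∧
      (1 / 2) * ∏ p ∈ P, (1 - g p) ≤ ∑ e ∈ Icc 1 D, th e * G e := by
  classical
  have hPp : ∀ p ∈ P, p.Prime := by
    intro p hp
    rw [hP] at hp
    obtain ⟨j, -, hj⟩ := mem_biUnion.1 hp
    exact hprime j p hj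
  set C : Finset ℕ → ℝ := fun U => Cth Pb b U - Cdl Pb b U with hC
  have hCs : ∀ U ⊆ P, C U ≠ 0 → ∏ p ∈ U, p ≤ D := by
    intro U hU h
    by_cases h1 : Cth Pb b U = 0
    · have h2 : Cdl Pb b U ≠ 0 := by
        intro h2
        apply h
        simp only [hC]
        rw [h1, h2, sub_zero]
      exact hlevel U hU (Cdl_supp Pb b h2)
    · exact hlevel U hU (Cth_supp Pb b h1)
  have hC1 : ∀ U, |C U| ≤ J + 1 := by
    intro U
    simp only [hC]
    have h1 := Cth_abs Pb b U
    have h2 := Cdl_abs Pb b U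
    calc |Cth Pb b U - Cdl Pb b U| ≤ |Cth Pb b U| + |Cdl Pb b U| := abs_sub _ _
      _ ≤ _ := by linarith
  have hsumC : ∀ f : ℕ → ℝ, ∑ U ∈ P.powerset, C U * ∏ p ∈ U, f p =
      ∏ j : Fin J, bhA f (2 * (b + j)) (Pb j) -
      ∑ i : Fin J, bhE f (2 * (b + i) + 1) (Pb i) *
        ∏ j ∈ univ.erase i, bhA f (2 * (b + j)) (Pb j) := by
    intro f
    have h1 := sum_Cth Pb b hd P hP f
    have h2 := sum_Cdl Pb b hd P hP f
    simp only [hC, sub_mul, sum_sub_distrib]
    rw [h1, h2]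
    rfl
  refine ⟨cf P D C, ?_, ?_, ?_, ?_⟩
  · intro e
    unfold cf
    split_ifs
    · exact hC1 _
    · rw [abs_zero]; positivity
  · intro e he
    unfold cf at he
    split_ifs at he with h
    · refine ⟨h.1, h.2.2, fun p hp hpe => h.2.1 ?_⟩
      rw [Nat.mem_primeFactors]
      exact ⟨hp, hpe, h.1.ne_zero⟩
    · exact absurd rfl he
  · intro m
    have hEv : ∑ e ∈ Icc 1 D, cf P D C e * (if (e : ℤ) ∣ m then (1 : ℝ) else 0) =
        ∑ U ∈ P.powerset, C U * ∏ p ∈ U, (if p ∣ m.natAbs then (1 : ℝ) else 0) := by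
      apply cf_sum P hPp D C hCs (fun e : ℕ => if (e : ℤ) ∣ m then (1 : ℝ) else 0)
      intro U hU
      exact dvd_ite_prod U (fun p hp => hPp p (hU hp)) m
    rw [hEv, hsumC]
    set N := m.natAbs with hN
    have hy : ∀ j : Fin J, bhA (fun p => if p ∣ N then (1 : ℝ) else 0) (2 * (b + j)) (Pb j) =
        ∑ U ∈ (Pb j).powerset.filter (fun U => U.card ≤ 2 * (b + j)),
          if ∀ l ∈ U, l ∣ N then ((-1 : ℝ)) ^ U.card else 0 := by
      intro j
      unfold bhA
      apply sum_congr rfl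
      intro U _
      rw [Finset.prod_ite_zero]
      simp only [prod_const_one]
      split_ifs <;> simp
    have he : ∀ j : Fin J, bhE (fun p => if p ∣ N then (1 : ℝ) else 0) (2 * (b + j) + 1) (Pb j) =
        ∑ U ∈ (Pb j).powersetCard (2 * (b + j) + 1), if ∀ l ∈ U, l ∣ N then (1 : ℝ) else 0 := by
      intro j
      unfold bhE
      apply sum_congr rfl
      intro U _
      rw [Finset.prod_ite_zero]
      simp only [prod_const_one]
    simp only [hy, he]
    have hloc := fun j : Fin J => bh_local (Pb j) (2 * (b + j)) (even_two_mul _) N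
    have hx : PL.xx P m = ∏ j : Fin J, (if ∀ l ∈ Pb j, ¬ l ∣ N then (1 : ℝ) else 0) := by
      unfold PL.xx
      rw [Finset.prod_ite_zero]
      simp only [prod_const_one]
      have : (∀ p ∈ P, ¬ (p : ℤ) ∣ m) ↔ ∀ i ∈ (univ : Finset (Fin J)), ∀ l ∈ Pb i, ¬ l ∣ N := by
        rw [hP]
        simp only [mem_biUnion, mem_univ, true_and, forall_exists_index, forall_true_left,
          Int.natCast_dvd]
        constructor
        · intro h i l hl
          exact h l i hl
        · intro h l i hl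
          exact h i l hl
      simp only [this]
    rw [hx]
    have := bh_prod_sub univ _ _ _ (fun j => (hloc j).1) (fun j => (hloc j).2.1)
        fun j => (hloc j).2.2
    linarith
  · rw [cf_sum P hPp D C hCs G g hG, hsumC]
    set V : Fin J → ℝ := fun j => ∏ p ∈ Pb j, (1 - g p) with hV
    set T : Fin J → ℝ := fun j => bhA g (2 * (b + j)) (Pb j) with hT
    set E : Fin J → ℝ := fun j => bhE g (2 * (b + j) + 1) (Pb j) with hE
    have hVV : ∏ p ∈ P, (1 - g p) = ∏ j, V j := by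
      rw [hP, prod_biUnion]
      intro i _ j _ hij
      exact hd i j hij
    rw [hVV]
    have hmem : ∀ j, ∀ p ∈ Pb j, p ∈ P := by
      intro j p hp
      rw [hP, mem_biUnion]
      exact ⟨j, mem_univ _, hp⟩
    have hgb : ∀ j, ∀ p ∈ Pb j, 0 ≤ g p ∧ g p ≤ 1 / 2 :=
      fun j p hp => hg p (hmem j p hp)
    have hbonf : ∀ j, V j ≤ T j := by
      intro j
      have h := bh_bonf g (Pb j)
        (fun p hp => ⟨(hgb j p hp).1, (hgb j p hp).2.trans (by norm_num)⟩) (2 * (b + j))
      rw [(even_two_mul _).neg_one_pow, one_mul] at h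
      have := h.1; simp only [hV, hT]; linarith
    set v : ℝ := Real.exp (-(2 * L)) with hv
    have hv0 : 0 < v := Real.exp_pos _
    have hvinv : Real.exp (2 * L) = v⁻¹ := by rw [hv, Real.exp_neg, inv_inv]
    have hVv : ∀ j, v ≤ V j := by
      intro j
      have h1 : Real.exp (-(2 * ∑ l ∈ Pb j, g l)) ≤ V j := by
        have : -(2 * ∑ l ∈ Pb j, g l) = ∑ l ∈ Pb j, (-(2 * g l)) := by
          rw [mul_sum, ← sum_neg_distrib]
        rw [this, Real.exp_sum]
        exact prod_le_prod (fun l _ => (Real.exp_pos _).le)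
          fun l hl => bh_inv_ge (hgb j l hl).1 (hgb j l hl).2
      refine le_trans ?_ h1
      exact Real.exp_le_exp.2 (by linarith [hL j])
    have hE0 : ∀ j, 0 ≤ E j := fun j => bhE_nonneg _ _ _ fun l hl => (hgb j l hl).1
    have hEle : ∀ j : Fin J, E j ≤ L ^ (2 * (b + (j : ℕ)) + 1) /
        ((2 * (b + (j : ℕ)) + 1).factorial : ℝ) := by
      intro j
      refine (bhE_le g (Pb j) (fun l hl => (hgb j l hl).1) (2 * (b + j) + 1)).trans ?_
      have h0 : 0 ≤ ∑ l ∈ Pb j, g l := sum_nonneg fun l hl => (hgb j l hl).1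
      have := hL j
      gcongr
    have hsum : ∑ j, E j / v ≤ 1 / 2 := by
      refine le_trans (sum_le_sum fun j _ => ?_) hρ
      rw [hvinv, div_eq_inv_mul]
      exact mul_le_mul_of_nonneg_left (hEle j) (by positivity)
    have hV0 : ∀ j, 0 < V j := fun j => lt_of_lt_of_le hv0 (hVv j)
    have hT0 : ∀ j, 0 < T j := fun j => lt_of_lt_of_le (hV0 j) (hbonf j)
    have hVT : ∏ j, V j ≤ ∏ j, T j := prod_le_prod (fun j _ => (hV0 j).le) fun j _ => hbonf j
    have hterm : ∀ k, E k * ∏ i ∈ univ.erase k, T i ≤ E k / v * ∏ i, T i := by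
      intro k
      have h2 : 0 ≤ ∏ i ∈ univ.erase k, T i := prod_nonneg fun i _ => (hT0 i).le
      have h1 : ∏ i, T i = T k * ∏ i ∈ univ.erase k, T i :=
        (mul_prod_erase univ T (mem_univ k)).symm
      rw [h1, div_mul_eq_mul_div, le_div_iff₀ hv0]
      have h3 : v ≤ T k := (hVv k).trans (hbonf k)
      have h4 : E k * (∏ i ∈ univ.erase k, T i) * v ≤
          E k * (∏ i ∈ univ.erase k, T i) * T k :=
        mul_le_mul_of_nonneg_left h3 (mul_nonneg (hE0 k) h2)
      linarith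
    have hTp : 0 < ∏ i, T i := prod_pos fun i _ => hT0 i
    have h5 : ∑ k, E k * ∏ i ∈ univ.erase k, T i ≤ 1 / 2 * ∏ i, T i := by
      calc ∑ k, E k * ∏ i ∈ univ.erase k, T i ≤ ∑ k, E k / v * ∏ i, T i :=
            sum_le_sum fun k _ => hterm k
        _ = (∑ k, E k / v) * ∏ i, T i := by rw [sum_mul]
        _ ≤ _ := mul_le_mul_of_nonneg_right hsum hTp.le
    linarith

theorem one_sub_ge {x : ℝ} (h0 : 0 ≤ x) (h1 : x ≤ 1 / 2) : Real.exp (-(x + x ^ 2)) ≤ 1 - x := by
  have h2 : Real.exp (-(x + x ^ 2)) = (Real.exp (x + x ^ 2))⁻¹ := Real.exp_neg _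
  rw [h2, inv_le_comm₀ (Real.exp_pos _) (by linarith)]
  have h3 := Real.quadratic_le_exp_of_nonneg (x := x + x ^ 2) (by positivity)
  refine le_trans ?_ h3
  rw [inv_le_iff_one_le_mul₀ (by linarith)]
  nlinarith [mul_nonneg h0 h0, mul_nonneg (mul_nonneg h0 h0) h0,
    mul_nonneg (mul_nonneg h0 h0) (mul_nonneg h0 h0),
    mul_nonneg (mul_nonneg h0 h0) (sub_nonneg.2 h1)]

theorem mem_pr {N p : ℕ} {u v : ℝ} : p ∈ pr N u v ↔
    (1 ≤ p ∧ p ≤ N) ∧ p.Prime ∧ u ≤ tt N p ∧ tt N p < v := by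
  unfold pr
  rw [mem_filter, mem_Icc]

theorem BHK : St_BHK := by
  intro k hk
  have hk1 : (1 : ℝ) ≤ k := by exact_mod_cast hk
  have hk0 : (0 : ℝ) < k := by linarith
  set b : ℕ := 3 * k with hb
  have hbR : (b : ℝ) = 3 * k := by rw [hb]; push_cast; ring
  have h46 : (0 : ℝ) < 4 * b + 6 := by positivity
  set ζ : ℝ := 49 / (100 * (4 * b + 6)) with hζ
  have hζ0 : 0 < ζ := by positivity
  have hζ1 : (4 * b + 6) * ζ = 49 / 100 := by rw [hζ]; field_simp
  have hζ2 : ζ ≤ 1 / 10 := by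
    have : (10 : ℝ) ≤ 4 * b + 6 := by rw [hbR]; linarith
    nlinarith
  refine ⟨ζ, Real.exp (-1) / 2, hζ0, hζ2, by positivity, ?_⟩
  intro ε hε hεζ
  have hlogr : 0 ≤ Real.log (ζ / ε) := by
    apply Real.log_nonneg
    rw [le_div_iff₀ hε]
    linarith
  set δ : ℝ := 1 / (2 * (k * Real.log (ζ / ε) + 1)) with hδ
  have hkl : 0 ≤ k * Real.log (ζ / ε) := mul_nonneg hk0.le hlogr
  have hδ0 : 0 < δ := by positivity
  have hδ1 : δ ≤ 1 / 2 := by
    rw [hδ]
    apply one_div_le_one_div_of_le (by norm_num)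
    linarith
  have hδ2 : δ * (k * Real.log (ζ / ε) + 1) = 1 / 2 := by
    rw [hδ]; field_simp
  obtain ⟨N₁, hN₁⟩ := Pool.Agent.W378.DC.MP ε (1 / (4 * k)) hε (by positivity)
  obtain ⟨J, hJ⟩ := exists_pow_lt_of_lt_one (show 0 < ε / ζ by positivity)
    (show (1 / 2 : ℝ) < 1 by norm_num)
  have hJ1 : 1 ≤ J := by
    rcases Nat.eq_zero_or_pos J with h | h
    · rw [h, pow_zero, lt_div_iff₀ hζ0] at hJ
      linarith
    · exact h
  have hJε : ζ * (1 / 2) ^ J ≤ ε := by
    rw [lt_div_iff₀ hζ0] at hJ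
    linarith
  refine ⟨max (max N₁ 3) ⌈Real.exp (Real.log (k / δ + 1) / ε)⌉₊, J + 1, by positivity, ?_⟩
  intro N hN P hPsub
  have hN1 : N₁ ≤ N := le_trans (le_trans (le_max_left _ _) (le_max_left _ _)) hN
  have hN3 : 3 ≤ N := le_trans (le_trans (le_max_right _ _) (le_max_left _ _)) hN
  have hNe : Real.exp (Real.log (k / δ + 1) / ε) ≤ N :=
    (Nat.le_ceil _).trans (by exact_mod_cast le_trans (le_max_right _ _) hN)
  have hN0 : (0 : ℝ) < N := by
    have : (3 : ℝ) ≤ N := by exact_mod_cast hN3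
    linarith
  have hlog0 : 0 < Real.log N := by
    apply Real.log_pos
    have : (3 : ℝ) ≤ N := by exact_mod_cast hN3
    linarith
  have hkd : (0 : ℝ) < k / δ + 1 := by positivity
  have hlogN : Real.log (k / δ + 1) ≤ ε * Real.log N := by
    have := (Real.le_log_iff_exp_le hN0).2 hNe
    rw [div_le_iff₀ hε] at this
    linarith
  set g : ℕ → ℝ := fun p => k / ((p : ℝ) - 1) with hg
  have hgall : ∀ p ∈ pr N ε ζ, 0 ≤ g p ∧ g p ≤ δ := by
    intro p hp
    rw [mem_pr] at hp
    have hp0 : (0 : ℝ) < p := by exact_mod_cast hp.2.1.pos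
    have h1 := hp.2.2.1
    unfold tt at h1
    rw [le_div_iff₀ hlog0] at h1
    have h2 : (k : ℝ) / δ + 1 ≤ p := by
      rw [← Real.log_le_log_iff hkd hp0]
      linarith
    have h3 : (k : ℝ) / δ ≤ p - 1 := by linarith
    have h4 : (0 : ℝ) < p - 1 := lt_of_lt_of_le (by positivity) h3
    refine ⟨by simp only [hg]; positivity, ?_⟩
    simp only [hg]
    rw [div_le_iff₀ h4]
    rw [div_le_iff₀ hδ0] at h3
    linarith
  have hgP : ∀ p ∈ P, 0 ≤ g p ∧ g p ≤ 1 / 2 := fun p hp =>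
    ⟨(hgall p (hPsub hp)).1, (hgall p (hPsub hp)).2.trans hδ1⟩
  have hPmem : ∀ p ∈ P, (1 ≤ p ∧ p ≤ N) ∧ p.Prime ∧ ε ≤ tt N p ∧ tt N p < ζ :=
    fun p hp => mem_pr.1 (hPsub hp)
  set Pb : Fin J → Finset ℕ := fun j => blk N ζ P j with hPb
  have hmono : ∀ i j : ℕ, i ≤ j → ζ * (1 / 2 : ℝ) ^ j ≤ ζ * (1 / 2) ^ i := by
    intro i j hij
    apply mul_le_mul_of_nonneg_left _ hζ0.le
    exact pow_le_pow_of_le_one (by norm_num) (by norm_num) hij
  have hdisj0 : ∀ i j : ℕ, i < j → Disjoint (blk N ζ P i) (blk N ζ P j) := by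
    intro i j hij
    rw [disjoint_left]
    intro p hi hj
    rw [mem_blk] at hi hj
    have := hmono (i + 1) j hij
    linarith [hi.2.1, hj.2.2]
  have hdisj : ∀ i j, i ≠ j → Disjoint (Pb i) (Pb j) := by
    intro i j hij
    rcases lt_or_gt_of_ne (fun h => hij (Fin.ext h) : (i : ℕ) ≠ j) with h | h
    · exact hdisj0 i j h
    · exact (hdisj0 j i h).symm
  have hcover : P = univ.biUnion Pb := by
    ext p
    rw [mem_biUnion]
    constructor
    · intro hp
      have htt : ζ * (1 / 2) ^ (J - 1 + 1) ≤ tt N p := by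
        have : J - 1 + 1 = J := by omega
        rw [this]
        exact hJε.trans (hPmem p hp).2.2.1
      have hex : ∃ j : ℕ, ζ * (1 / 2) ^ (j + 1) ≤ tt N p := ⟨J - 1, htt⟩
      classical
      have h1 := Nat.find_spec hex
      have h2 : Nat.find hex ≤ J - 1 := Nat.find_min' hex htt
      refine ⟨⟨Nat.find hex, by omega⟩, mem_univ _, ?_⟩
      simp only [hPb]
      rw [mem_blk]
      refine ⟨hp, h1, ?_⟩
      by_cases h0 : Nat.find hex = 0
      · rw [h0, pow_zero, mul_one]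
        exact (hPmem p hp).2.2.2
      · have h3 := Nat.find_min hex (m := Nat.find hex - 1) (by omega)
        have h4 : Nat.find hex - 1 + 1 = Nat.find hex := by omega
        rw [h4] at h3
        push Not at h3
        exact h3
    · rintro ⟨j, -, hj⟩
      simp only [hPb] at hj
      exact (mem_blk.1 hj).1
  have hprime : ∀ j, ∀ p ∈ Pb j, p.Prime := by
    intro j p hp
    exact (hPmem p (mem_blk.1 hp).1).2.1
  have hη : (k : ℝ) * (1 / (4 * k)) = 1 / 4 := by field_simp
  have hLj : ∀ j, ∑ p ∈ Pb j, g p ≤ (k : ℝ) := by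
    intro j
    by_cases hc : ε ≤ ζ * (1 / 2) ^ (j : ℕ)
    · set a : ℝ := max ε (ζ * (1 / 2) ^ ((j : ℕ) + 1)) with ha
      set B : ℝ := ζ * (1 / 2) ^ (j : ℕ) with hB
      have hB0 : 0 < B := by positivity
      have haB : a ≤ B := max_le hc (hmono j (j + 1) (by omega))
      have ha2 : B / 2 ≤ a := by
        refine le_trans (le_of_eq ?_) (le_max_right _ _)
        rw [hB, pow_succ]; ring
      have ha0 : 0 < a := lt_of_lt_of_le hε (le_max_left _ _)
      have hB1 : B ≤ 1 := by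
        have := hmono 0 j (by omega)
        rw [pow_zero, mul_one] at this
        linarith
      have hMP := hN₁ N hN1 a B (le_max_left _ _) haB hB1
      have h1 := (abs_le.1 hMP).2
      have h2 : Real.log (B / a) ≤ Real.log 2 := by
        apply Real.log_le_log (by positivity)
        rw [div_le_iff₀ ha0]
        linarith
      have hsub : Pb j ⊆ pr N a B := by
        intro p hp
        have h3 := mem_blk.1 hp
        have h4 := hPmem p h3.1
        rw [mem_pr]
        exact ⟨h4.1, h4.2.1, max_le h4.2.2.1 h3.2.1, h3.2.2⟩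
      have h5 : ∑ p ∈ Pb j, g p ≤ k * ∑ p ∈ pr N a B, 1 / ((p : ℝ) - 1) := by
        rw [mul_sum]
        refine (sum_le_sum_of_subset_of_nonneg hsub fun p hp _ => ?_).trans (le_of_eq ?_)
        · have h6 := (mem_pr.1 hp).2.1.one_lt
          have h7 : (1 : ℝ) < p := by exact_mod_cast h6
          simp only [hg]
          have : (0 : ℝ) < p - 1 := by linarith
          positivity
        · apply sum_congr rfl
          intro p _
          simp only [hg]
          rw [mul_one_div]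
      have h6 : k * ∑ p ∈ pr N a B, 1 / ((p : ℝ) - 1) ≤ k * (Real.log 2 + 1 / (4 * k)) := by
        apply mul_le_mul_of_nonneg_left _ hk0.le
        linarith
      have h7 := Real.log_two_lt_d9
      rw [mul_add, hη] at h6
      nlinarith
    · have : Pb j = ∅ := by
        rw [eq_empty_iff_forall_notMem]
        intro p hp
        have h3 := mem_blk.1 hp
        have h4 := hPmem p h3.1
        push Not at hc
        linarith [h4.2.2.1, h3.2.2]
      rw [this, sum_empty]
      exact hk0.le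
  have hlevel : ∀ U ⊆ P, (∀ j : Fin J, (U ∩ Pb j).card ≤ 2 * (b + j) + 1) →
      ∏ p ∈ U, p ≤ ⌊(N : ℝ) ^ (49 / 100 : ℝ)⌋₊ := by
    intro U hU hc
    have hUpos : ∀ p ∈ U, (0 : ℝ) < p := fun p hp => by
      exact_mod_cast (hPmem p (hU hp)).2.1.pos
    have hsplit : U = univ.biUnion fun j => U ∩ Pb j := by
      ext p
      rw [mem_biUnion]
      constructor
      · intro hp
        have := hU hp
        rw [hcover, mem_biUnion] at this
        obtain ⟨j, hj, hpj⟩ := this
        exact ⟨j, hj, mem_inter.2 ⟨hp, hpj⟩⟩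
      · rintro ⟨j, -, hj⟩
        exact (mem_inter.1 hj).1
    have hlogU : ∑ p ∈ U, Real.log p ≤ 49 / 100 * Real.log N := by
      calc ∑ p ∈ U, Real.log p = ∑ j : Fin J, ∑ p ∈ U ∩ Pb j, Real.log p := by
            conv_lhs => rw [hsplit]
            rw [sum_biUnion]
            intro i _ j _ hij
            exact disjoint_of_subset_left inter_subset_right
              (disjoint_of_subset_right inter_subset_right (hdisj i j hij))
        _ ≤ ∑ j : Fin J, (2 * ((b : ℝ) + (j : ℕ)) + 1) * (1 / 2 : ℝ) ^ (j : ℕ) *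
              (ζ * Real.log N) := by
            apply sum_le_sum
            intro j _
            calc ∑ p ∈ U ∩ Pb j, Real.log p ≤
                ∑ p ∈ U ∩ Pb j, ζ * (1 / 2) ^ (j : ℕ) * Real.log N := by
                  apply sum_le_sum
                  intro p hp
                  have h1 := (mem_blk.1 (mem_inter.1 hp).2).2.2
                  unfold tt at h1
                  rw [div_lt_iff₀ hlog0] at h1
                  exact h1.le
              _ = ((U ∩ Pb j).card : ℝ) * (ζ * (1 / 2) ^ (j : ℕ) * Real.log N) := by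
                  rw [sum_const, nsmul_eq_mul]
              _ ≤ (2 * ((b : ℝ) + (j : ℕ)) + 1) * (ζ * (1 / 2) ^ (j : ℕ) * Real.log N) := by
                  apply mul_le_mul_of_nonneg_right _ (by positivity)
                  exact_mod_cast hc j
              _ = _ := by ring
        _ = (4 * b + 6 - (4 * J + 4 * b + 6) * (1 / 2 : ℝ) ^ J) * (ζ * Real.log N) := by
            rw [← sum_mul, Fin.sum_univ_eq_sum_range
              (fun j => (2 * ((b : ℝ) + (j : ℕ)) + 1) * (1 / 2 : ℝ) ^ j), geo_sum]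
        _ ≤ (4 * b + 6) * (ζ * Real.log N) := by
            apply mul_le_mul_of_nonneg_right _ (by positivity)
            have : 0 ≤ (4 * (J : ℝ) + 4 * b + 6) * (1 / 2 : ℝ) ^ J := by positivity
            linarith
        _ = (4 * b + 6) * ζ * Real.log N := by ring
        _ = 49 / 100 * Real.log N := by rw [hζ1]
    apply Nat.le_floor
    push_cast
    rw [← Real.log_le_log_iff (prod_pos hUpos) (Real.rpow_pos_of_pos hN0 _),
      Real.log_rpow hN0, Real.log_prod (fun p hp => (hUpos p hp).ne')]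
    exact hlogU
  have hρ : ∑ j : Fin J, Real.exp (2 * (k : ℝ)) *
      ((k : ℝ) ^ (2 * (b + (j : ℕ)) + 1) / ((2 * (b + (j : ℕ)) + 1).factorial : ℝ)) ≤ 1 / 2 := by
    rw [← mul_sum, Fin.sum_univ_eq_sum_range
      (fun j => (k : ℝ) ^ (2 * (b + j) + 1) / ((2 * (b + j) + 1).factorial : ℝ))]
    have h1 := tail_sum k 1 hk0 (by norm_num) b J
    have h2 := mul_le_mul_of_nonneg_left h1 (Real.exp_pos (2 * (k : ℝ))).le
    refine h2.trans ?_
    rw [← Real.exp_add]
    have h3 : (1 / 2 : ℝ) = Real.exp (-Real.log 2) := by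
      rw [Real.exp_neg, Real.exp_log (by norm_num)]; norm_num
    rw [h3]
    apply Real.exp_le_exp.2
    have h4 := Real.exp_one_lt_d9
    have h5 := Real.log_two_lt_d9
    rw [hbR]
    nlinarith
  have hG : ∀ U ⊆ P, kw k (∏ p ∈ U, p) / (Nat.totient (∏ p ∈ U, p) : ℝ) = ∏ p ∈ U, g p := by
    intro U hU
    have hUp : ∀ p ∈ U, p.Prime := fun p hp => (hPmem p (hU hp)).2.1
    rw [tot_prod U hUp]
    unfold kw
    rw [Nat.primeFactors_prod hUp]
    simp only [hg]
    rw [prod_div_distrib, prod_const]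
  obtain ⟨th, h1, h2, h3, h4⟩ := coreK Pb b hdisj P hcover hprime g hgP k hLj
    ⌊(N : ℝ) ^ (49 / 100 : ℝ)⌋₊ hlevel hρ (fun e => kw k e / (Nat.totient e : ℝ)) hG
  refine ⟨th, h1, ?_, ?_, ?_⟩
  · intro e he
    obtain ⟨a1, a2, a3⟩ := h2 e he
    refine ⟨a1, ?_, a3⟩
    exact (Nat.le_floor_iff (Real.rpow_nonneg hN0.le _)).1 a2
  · intro m
    exact h3 m
  · refine le_trans ?_ h4
    -- the main term
    have hsub : ∏ p ∈ pr N ε ζ, (1 - g p) ≤ ∏ p ∈ P, (1 - g p) := by
      classical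
      rw [← prod_sdiff hPsub]
      apply mul_le_of_le_one_left
      · exact prod_nonneg fun p hp => by linarith [(hgP p hp).2]
      · apply prod_le_one
        · intro p hp
          linarith [(hgall p (mem_sdiff.1 hp).1).2]
        · intro p hp
          linarith [(hgall p (mem_sdiff.1 hp).1).1]
    have hMP := hN₁ N hN1 ε ζ le_rfl hεζ.le (by linarith)
    have hS : ∑ p ∈ pr N ε ζ, g p ≤ k * Real.log (ζ / ε) + 1 / 4 := by
      have a1 := (abs_le.1 hMP).2
      have a2 : ∑ p ∈ pr N ε ζ, g p = k * ∑ p ∈ pr N ε ζ, 1 / ((p : ℝ) - 1) := by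
        rw [mul_sum]
        apply sum_congr rfl
        intro p _
        simp only [hg]
        rw [mul_one_div]
      rw [a2]
      have a3 : k * ∑ p ∈ pr N ε ζ, 1 / ((p : ℝ) - 1) ≤
          k * (Real.log (ζ / ε) + 1 / (4 * k)) := by
        apply mul_le_mul_of_nonneg_left _ hk0.le
        linarith
      rw [mul_add, hη] at a3
      exact a3
    have hS2 : ∑ p ∈ pr N ε ζ, g p ^ 2 ≤ 1 / 2 := by
      calc ∑ p ∈ pr N ε ζ, g p ^ 2 ≤ ∑ p ∈ pr N ε ζ, δ * g p := by
            apply sum_le_sum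
            intro p hp
            have := hgall p hp
            rw [pow_two]
            exact mul_le_mul_of_nonneg_right this.2 this.1
        _ = δ * ∑ p ∈ pr N ε ζ, g p := by rw [mul_sum]
        _ ≤ δ * (k * Real.log (ζ / ε) + 1) := by
            apply mul_le_mul_of_nonneg_left _ hδ0.le
            linarith
        _ = 1 / 2 := hδ2
    have hprod : Real.exp (-(k * Real.log (ζ / ε) + 1)) ≤ ∏ p ∈ pr N ε ζ, (1 - g p) := by
      have a1 : Real.exp (∑ p ∈ pr N ε ζ, (-(g p + g p ^ 2))) ≤ ∏ p ∈ pr N ε ζ, (1 - g p) := by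
        rw [Real.exp_sum]
        exact prod_le_prod (fun l _ => (Real.exp_pos _).le)
          fun l hl => one_sub_ge (hgall l hl).1 ((hgall l hl).2.trans hδ1)
      refine le_trans (Real.exp_le_exp.2 ?_) a1
      rw [sum_neg_distrib, sum_add_distrib]
      linarith
    have hpow : Real.exp (-(k * Real.log (ζ / ε) + 1)) = Real.exp (-1) * (ε / ζ) ^ k := by
      have a1 : -(k * Real.log (ζ / ε) + 1) = -1 + k * Real.log (ε / ζ) := by
        have : Real.log (ε / ζ) = - Real.log (ζ / ε) := by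
          rw [← Real.log_inv, inv_div]
        rw [this]; ring
      rw [a1, Real.exp_add, Real.exp_nat_mul, Real.exp_log (by positivity)]
    have hle : ε ^ k ≤ (ε / ζ) ^ k := by
      apply pow_le_pow_left₀ hε.le
      rw [le_div_iff₀ hζ0]
      nlinarith
    have a5 : Real.exp (-1) * ε ^ k ≤ Real.exp (-1) * (ε / ζ) ^ k :=
      mul_le_mul_of_nonneg_left hle (Real.exp_pos _).le
    linarith

end Pool.Agent.W762.KT
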